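import Pool.Agent.TH729.BQ.Mat2
import Mathlib.Algebra.CharP.Algebra

/-!
# The closure of the rational points of quadric bundles of bidegree (2,2)

Let `K` be a number field (or any field of characteristic zero) and let `X` be the hypersurface of
bidegree `(2,2)`

  `T₀² A(Y) + T₀ T₁ B(Y) + T₁² C(Y) = 0`   in   `ℙⁿ⁻¹ × ℙ¹`, `n ≥ 3`,

where `A`, `B`, `C` are linearly independent quadratic forms over `K` and the generic fibre of the
projection `X → ℙ¹` is a smooth quadric.  If `X` is smooth, then it is rationally connected, and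
(for number fields) the conjecture that the Brauer-Manin obstruction is the only one implies that
the closure of `X(K)` in the product of the `X(K_v)` over a finite set of places is open; as the
Brauer classes of `X` come from the generic point of `ℙ¹`, it also implies that this closure is
saturated with respect to the smooth fibres.  We prove both properties at the smooth fibres.

Let `(L_i)` be a family of completions of `K`, such that the image of `K` in the product of the
`L_i` is dense (for a number field: the completions at the places of any set of places, finite or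
infinite).  We consider the closure of `X(K)` in the product of the `X(L_i)`.

1. In an adherent point `(y_i, t_i)`, for any of the indices `i` such that the fibre of `X` over
   `t_i` is smooth one can replace `y_i` by any other `L_i`-rational point of this fibre.
2. If all the fibres over the `t_i` are smooth, then the closure contains a product of
   neighbourhoods of the points `(y_i, t_i)` in `X(L_i)`; in particular, if there are finitely many
   indices, then it contains a neighbourhood of the point `(y_i, t_i)`.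
-/

set_option autoImplicit false

namespace Pool.Agent.Results.MP_12adaf_nt.QuadricBundlesOpenClosure

open Matrix

universe u v w

/-- The matrix of the fibre over `t`. -/
def fibre {R : Type*} [CommRing R] {n : ℕ} (A B C : Matrix (Fin n) (Fin n) R) (t : Fin 2 → R) :
    Matrix (Fin n) (Fin n) R :=
  t 0 ^ 2 • A + (t 0 * t 1) • B + t 1 ^ 2 • C

/-- `(y, t)` are bihomogeneous coordinates of a point of the hypersurface `X`. -/
def IsPoint {R : Type*} [CommRing R] {n : ℕ} (A B C : Matrix (Fin n) (Fin n) R) (y : Fin n → R)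
    (t : Fin 2 → R) : Prop :=
  y ≠ 0 ∧ t ≠ 0 ∧ y ⬝ᵥ fibre A B C t *ᵥ y = 0

/-- The family of points with bihomogeneous coordinates `(y_i, t_i)` over `L_i` is adherent to
`X(K)`: every neighbourhood of the coordinates contains a family of coordinates of one
`K`-rational point of `X`. -/
def Adherent {K : Type u} [Field K] {ι : Type v} {L : ι → Type w}
    [∀ i, NontriviallyNormedField (L i)] (σ : ∀ i, K →+* L i) {n : ℕ}
    (A B C : Matrix (Fin n) (Fin n) K) (y : ∀ i, Fin n → L i) (t : ∀ i, Fin 2 → L i) : Prop :=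
  ∀ U ∈ nhds (y, t), ∃ (Y : Fin n → K) (T : Fin 2 → K), IsPoint A B C Y T ∧
    ∃ c d : ∀ i, L i, (∀ i, c i ≠ 0 ∧ d i ≠ 0) ∧
      ((fun i j => c i * σ i (Y j)), fun i j => d i * σ i (T j)) ∈ U

open Pool.Agent.TH729.BQ in
lemma adherent_iff {K : Type u} [Field K] [CharZero K] {ι : Type v} [Nonempty ι] {L : ι → Type w}
    [∀ i, NontriviallyNormedField (L i)] [∀ i, CharZero (L i)] {σ : ∀ i, K →+* L i}
    (hσ : DenseRange fun (x : K) (i : ι) => σ i x) {n : ℕ} {A B C : Matrix (Fin n) (Fin n) K}
    (hA : A.IsSymm) (hB : B.IsSymm) (hC : C.IsSymm) {y : ∀ i, Fin n → L i}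
    {t : ∀ i, Fin 2 → L i} (hy : ∀ i, y i ≠ 0) (ht : ∀ i, t i ≠ 0) :
    Adherent σ A B C y t ↔ (y, t) ∈ Cl σ (matFam A B C hA hB hC) := by
  constructor
  · intro h
    have h1 : (y, t) ∈ closure (Cl σ (matFam A B C hA hB hC)) := by
      rw [mem_closure_iff_nhds]
      intro U hU
      obtain ⟨Y, T, ⟨-, -, h0⟩, c, d, -, h2⟩ := h U hU
      refine ⟨_, h2, ?_⟩
      have h3 : (vec σ Y, vec σ T) ∈ Cl σ (matFam A B C hA hB hC) := by
        refine subset_closure ⟨Y, T, ?_, rfl⟩
        rw [matFam_val]
        exact h0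
      exact Cl.scale hσ h3 c d
    rwa [Cl, closure_closure] at h1
  · intro h U hU
    obtain ⟨i0⟩ := ‹Nonempty ι›
    have h1 : ∀ᶠ p : (∀ i, Fin n → L i) × (∀ i, Fin 2 → L i) in nhds (y, t),
        p ∈ U ∧ p.1 i0 ≠ 0 ∧ p.2 i0 ≠ 0 := by
      have c1 : Continuous fun p : (∀ i, Fin n → L i) × (∀ i, Fin 2 → L i) => p.1 i0 := by fun_prop
      have c2 : Continuous fun p : (∀ i, Fin n → L i) × (∀ i, Fin 2 → L i) => p.2 i0 := by fun_prop
      filter_upwards [hU, c1.continuousAt.eventually_ne (hy i0),
        c2.continuousAt.eventually_ne (ht i0)] with p h1 h2 h3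
      exact ⟨h1, h2, h3⟩
    obtain ⟨p, ⟨hp1, hp2, hp3⟩, Y, T, h0, rfl⟩ := mem_closure_iff_nhds.1 h _ h1
    refine ⟨Y, T, ⟨?_, ?_, ?_⟩, fun _ => 1, fun _ => 1, fun _ => ⟨one_ne_zero, one_ne_zero⟩, ?_⟩
    · rintro rfl
      apply hp2
      funext j
      simp [vec]
    · rintro rfl
      apply hp3
      funext j
      simp [vec]
    · rw [matFam_val] at h0
      exact h0
    · simp only [one_mul]
      exact hp1

theorem result :
    ∀ (K : Type u) [Field K] [CharZero K] (ι : Type v) [Nonempty ι] (L : ι → Type w)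
      [∀ i, NontriviallyNormedField (L i)] (σ : ∀ i, K →+* L i),
      DenseRange (fun (x : K) (i : ι) => σ i x) →
    ∀ (n : ℕ), 3 ≤ n → ∀ (A B C : Matrix (Fin n) (Fin n) K), A.IsSymm → B.IsSymm → C.IsSymm →
      LinearIndependent K ![A, B, C] → (∃ t : K, (t ^ 2 • A + t • B + C).det ≠ 0) →
    ∀ (y : ∀ i, Fin n → L i) (t : ∀ i, Fin 2 → L i),
      (∀ i, IsPoint (A.map (σ i)) (B.map (σ i)) (C.map (σ i)) (y i) (t i)) →
      Adherent σ A B C y t →
      -- (1) the closure is saturated with respect to the smooth fibres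
      (∀ z : ∀ i, Fin n → L i,
        (∀ i, IsPoint (A.map (σ i)) (B.map (σ i)) (C.map (σ i)) (z i) (t i)) →
        (∀ i, z i = y i ∨ (fibre (A.map (σ i)) (B.map (σ i)) (C.map (σ i)) (t i)).det ≠ 0) →
        Adherent σ A B C z t) ∧
      -- (2) the closure contains neighbourhoods of its points in the smooth fibres
      ((∀ i, CompleteSpace (L i)) →
        (∀ i, (fibre (A.map (σ i)) (B.map (σ i)) (C.map (σ i)) (t i)).det ≠ 0) →
        ∃ W : ∀ i, Set ((Fin n → L i) × (Fin 2 → L i)), (∀ i, W i ∈ nhds (y i, t i)) ∧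
          ∀ (z : ∀ i, Fin n → L i) (s : ∀ i, Fin 2 → L i),
            (∀ i, (z i, s i) ∈ W i ∧
              IsPoint (A.map (σ i)) (B.map (σ i)) (C.map (σ i)) (z i) (s i)) →
            Adherent σ A B C z s) := by
  intro K _ _ ι _ L _ σ hσ n hn A B C hA hB hC hind hdet y t hyt hadh
  have : ∀ i, CharZero (L i) := fun i => charZero_of_injective_ringHom (σ i).injective
  have hc := Pool.Agent.TH729.BQ.matFam_compat σ hA hB hC
  have hindL := fun i => Pool.Agent.TH729.BQ.linInd_map (σ i) hind
  have hIL := fun i => Pool.Agent.TH729.BQ.matFam_ind (hA.map (σ i)) (hB.map (σ i))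
    (hC.map (σ i)) (hindL i)
  have hdetL : ∀ i, ∃ t : L i, (t ^ 2 • A.map (σ i) + t • B.map (σ i) + C.map (σ i)).det ≠ 0 := by
    intro i
    obtain ⟨t, ht⟩ := hdet
    refine ⟨σ i t, ?_⟩
    have h1 : (σ i t) ^ 2 • A.map (σ i) + (σ i t) • B.map (σ i) + C.map (σ i) =
        (σ i).mapMatrix (t ^ 2 • A + t • B + C) := by
      ext k l
      simp
    rw [h1, ← RingHom.map_det]
    exact (map_ne_zero (σ i)).2 ht
  choose 𝓑 h𝓑 hbad hgood using fun i => Pool.Agent.TH729.BQ.matFam_bad' (hA.map (σ i))
    (hB.map (σ i)) (hC.map (σ i)) (hdetL i)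
  have hcl := (adherent_iff hσ hA hB hC (fun i => (hyt i).1) (fun i => (hyt i).2.1)).1 hadh
  have hval : ∀ i (s : Fin 2 → L i) (v : Fin n → L i),
      ((Pool.Agent.TH729.BQ.matFam (A.map (σ i)) (B.map (σ i)) (C.map (σ i)) (hA.map (σ i))
        (hB.map (σ i)) (hC.map (σ i))).H s s).f v v =
        v ⬝ᵥ fibre (A.map (σ i)) (B.map (σ i)) (C.map (σ i)) s *ᵥ v := fun i s v =>
    Pool.Agent.TH729.BQ.matFam_val _ _ _ s v v
  refine ⟨fun z hz hzy => ?_, fun hcomp hsm => ?_⟩
  · rw [adherent_iff hσ hA hB hC (fun i => (hz i).1) (fun i => (hyt i).2.1)]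
    refine Pool.Agent.TH729.BQ.Cl.all hc hσ hn hcl (fun i => (hyt i).1) (fun i => ⟨?_, ?_⟩)
      fun i => ?_
    · -- the form is not zero
      by_contra hcon
      push Not at hcon
      obtain ⟨R, hR⟩ := Pool.Agent.TH729.BQ.exists_wedge (hyt i).2.1
      have := (Pool.Agent.TH729.BQ.Fam.ind2 _ (hIL i) hR (α := 1) (β := 0) (γ := 0)
        (fun v => by rw [hcon v]; ring)).1
      exact one_ne_zero this
    · rcases hzy i with h | h
      · exact Or.inl h
      · exact Or.inr (hbad i (t i) (hyt i).2.1 (hgood i (t i) h))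
    · rw [hval]
      exact (hz i).2.2
  · obtain ⟨𝒰, h𝒰, h1⟩ := Pool.Agent.TH729.BQ.Cl.open hc hσ hn hIL h𝓑 hbad hcl
      (fun i => (hyt i).1) (fun i => (hyt i).2.1) fun i => hgood i (t i) (hsm i)
    refine ⟨fun i => {p | p.2 ∈ 𝒰 i}, fun i => ?_, fun z s hzs => ?_⟩
    · exact continuous_snd.continuousAt.preimage_mem_nhds (h𝒰 i)
    · rw [adherent_iff hσ hA hB hC (fun i => (hzs i).2.1) (fun i => (hzs i).2.2.1)]
      refine h1 s (fun i => (hzs i).1) z fun i => ?_
      rw [hval]
      exact (hzs i).2.2.2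

end Pool.Agent.Results.MP_12adaf_nt.QuadricBundlesOpenClosure
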