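import Pool.Agent.TH204.HP.H14

/-! # Weak approximation for almost all of the varieties `yᵢ² - aᵢ zᵢ² = cᵢ (f(t₁, ..., t_m) + k)`

Let `f` be any integral polynomial of degree `d ≥ 2` in any number `m` of variables and let `aᵢ`, `cᵢ` be nonzero integers.
The varieties `V_k : yᵢ² - aᵢ zᵢ² = cᵢ (f(t) + k) ≠ 0`, `i < r`, are smooth and geometrically rational of dimension `m + r`.
For all but `X / (log X) ^ U` of the integers `|k| ≤ X` weak approximation at the finite places holds for `V_k`, to a fixed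
precision `p ^ (-N)` at the primes of a finite set `T` which contains the bad ones, under a condition at the real place. If `d` is
odd and all `cᵢ = 1` then this holds for all `T` without any condition; in particular `V_k` has rational points for 100% of the
integers `k`.

Proof. Given local points `t_p`, `p` in `T`, one takes `u` in `ℤ ^ m` such that `u / D` is close to `t_p` for all `p`, and a fixed
vector `v` at which the leading form `f_d` does not vanish (and has the right sign). On the line `(u + x v) / D` the number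
`D^(2d) f` is a polynomial in `x` of degree `d`, and there are only finitely many of these for all `k`. So the problem is
reduced to one variable. There a prime value of `F(x) + k'`, which exists for almost all `k'` (`Pool/Agent/TH204/WR`), gives
a fibre with trivial Hilbert symbols, hence with rational points (product formula and the theorem of Hasse and Minkowski), and
weak approximation for conics moves them close to the given ones. -/

set_option autoImplicit false

namespace Pool.Agent.Results.MP_12adaf_nt.ShiftedPolynomials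

open Finset MvPolynomial

instance (p : Nat.Primes) : Fact (p : ℕ).Prime := ⟨p.2⟩

variable {m r : ℕ}

/-- the point `(t, y, z)` with coordinates in the field `F` lies on `V_k` -/
def OnV (f : MvPolynomial (Fin m) ℤ) (a c : Fin r → ℤ) (k : ℤ) {F : Type} [Field F] (t : Fin m → F) (y z : Fin r → F) : Prop :=
  aeval t f + (k : F) ≠ 0 ∧ ∀ i, y i ^ 2 - (a i : F) * z i ^ 2 = (c i : F) * (aeval t f + (k : F))

/-- weak approximation of level `N` at the primes of `T`: for all families of `p`-adic points `(t, y, z)` of `V_k`, `p` in `T`,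
with coordinates of absolute value at most `p ^ N` and `|f(t) + k| ≥ p ^ (-N)` there is a rational point of `V_k` whose
coordinates are at the distance at most `p ^ (-N)` from those of the given point, for all `p` in `T`. For `T = ∅` this says
that `V_k` has a rational point. -/
def WA (f : MvPolynomial (Fin m) ℤ) (a c : Fin r → ℤ) (T : Finset Nat.Primes) (N : ℕ) (k : ℤ) : Prop :=
  ∀ (t : (p : Nat.Primes) → Fin m → ℚ_[(p : ℕ)]) (y z : (p : Nat.Primes) → Fin r → ℚ_[(p : ℕ)]),
    (∀ p ∈ T, OnV f a c k (t p) (y p) (z p) ∧ (∀ j, ‖t p j‖ ≤ ((p : ℕ) : ℝ) ^ N) ∧ (∀ i, ‖y p i‖ ≤ ((p : ℕ) : ℝ) ^ N) ∧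
      (∀ i, ‖z p i‖ ≤ ((p : ℕ) : ℝ) ^ N) ∧ (((p : ℕ) : ℝ) ^ N)⁻¹ ≤ ‖aeval (t p) f + (k : ℚ_[(p : ℕ)])‖) →
    ∃ (s : Fin m → ℚ) (Y Z : Fin r → ℚ), OnV f a c k s Y Z ∧
      ∀ p ∈ T, (∀ j, ‖(s j : ℚ_[(p : ℕ)]) - t p j‖ ≤ (((p : ℕ) : ℝ) ^ N)⁻¹) ∧
      ∀ i, ‖(Y i : ℚ_[(p : ℕ)]) - y p i‖ ≤ (((p : ℕ) : ℝ) ^ N)⁻¹ ∧ ‖(Z i : ℚ_[(p : ℕ)]) - z p i‖ ≤ (((p : ℕ) : ℝ) ^ N)⁻¹

/-- the condition at the real place: there is a sign `s` such that `s cᵢ > 0` whenever `aᵢ < 0` and such that `s k > 0` or the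
leading form of `f` takes a value of the sign `s` at an integral vector -/
def RealCond (f : MvPolynomial (Fin m) ℤ) (a c : Fin r → ℤ) (k : ℤ) : Prop :=
  ∃ s : ℤ, (s = 1 ∨ s = -1) ∧ (∀ i, a i < 0 → 0 < s * c i) ∧
    (0 < s * k ∨ ∃ v : Fin m → ℤ, 0 < s * eval v (homogeneousComponent f.totalDegree f))

open Classical in
theorem result (f : MvPolynomial (Fin m) ℤ) (hf : 2 ≤ f.totalDegree) (a c : Fin r → ℤ) (ha : ∀ i, a i ≠ 0)
    (hc : ∀ i, c i ≠ 0) :
    (∃ T₀ : Finset Nat.Primes, ∀ T : Finset Nat.Primes, T₀ ⊆ T → ∀ N U : ℕ, ∃ X₀ : ℕ, ∀ X : ℕ, X₀ ≤ X →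
      (#{k ∈ Icc (-(X : ℤ)) X | ¬ (RealCond f a c k → WA f a c T N k)} : ℝ) ≤ X / Real.log X ^ U) ∧
    (Odd f.totalDegree → (∀ i, c i = 1) → ∀ (T : Finset Nat.Primes) (N U : ℕ), ∃ X₀ : ℕ, ∀ X : ℕ, X₀ ≤ X →
      (#{k ∈ Icc (-(X : ℤ)) X | ¬ WA f a c T N k} : ℝ) ≤ X / Real.log X ^ U) := by
  constructor
  · have h := Pool.Agent.TH204.HP.quantM f hf a c ha hc
    simp only [Pool.Agent.TH204.HP.RC, Pool.Agent.TH204.HP.lead_eq] at h
    exact h
  · intro ho hc1 T N U
    have e : c = fun _ => 1 := funext hc1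
    rw [e]
    exact Pool.Agent.TH204.HP.oddM f hf ho a ha T N U

end Pool.Agent.Results.MP_12adaf_nt.ShiftedPolynomials
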